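import Pool.Agent.Q114.PK.Circuits
import Pool.Agent.Q211.CC.Even

/-!
Faithful circuit covers of weights with values in `kℤ_{≥0}`, `k` odd.

A graph which contains a subdivision of the Petersen graph fails the property `P_k` for every odd `k`
(for `k = 1` this is known; with the theorem of Alspach, Goddyn and Zhang it determines the bridgeless
graphs with `P_k` for all odd `k`: they are those without a subdivision of the Petersen graph).

Proof. Give the edges of the subdivision the weight `2` on the five spokes and `1` elsewhere. This
weight is admissible and eulerian. In a faithful circuit cover of `k` times this weight the weight of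
the spoke at a branch vertex is the sum of the weights of the two other edges, so every circuit through
a branch vertex uses the spoke: all the circuits alternate between spokes and other edges. An
alternating circuit of the Petersen graph has length eight and two outer edges; but the outer edges have
total weight `5 k`. So there is no cover for odd `k`. There are five alternating circuits of length
eight which cover `2` times the weight; so there is a cover for all even `k` (`Q211/CC/Even.lean`).
-/

set_option autoImplicit false

namespace Pool.Agent.Results.MP_3c540c_co.OddMultiples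

open Pool.Agent.W51.FCC Pool.Agent.H126R2.CDC Pool.Agent.Q114.PK

/-- Let the graph `G` (parallel edges allowed) contain a subdivision of the Petersen graph. Then there
is one weight `w` with values `0, 1, 2` such that all the multiples `k w` are admissible and eulerian,
and `k w` has a faithful circuit cover if and only if `k` is even; so `G` fails the property `P_k` for
every odd `k`. -/
theorem result (V E : Type) [Fintype V] [DecidableEq V] [Fintype E] [DecidableEq E]
    (G : MGraph V E) (hG : Nonempty (PetersenSubdivision G)) :
    (∃ w : E → ℕ, (∀ e, w e ≤ 2) ∧
      (∀ k : ℕ, Admissible G (fun e => k * w e) ∧ Eulerian G (fun e => k * w e)) ∧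
      ∀ k : ℕ, HasCover G (fun e => k * w e) ↔ Even k) ∧
    ∀ k : ℕ, Odd k → ¬ PropertyP k G := by
  obtain ⟨P⟩ := hG
  have hw : ∀ k : ℕ, (fun e => k * weight P 1 e) = weight P k := by
    intro k
    funext e
    unfold weight
    rw [one_mul]
  have hg : ∀ k : ℕ, weight P k = Pool.Agent.Q211.CC.wgt P k := by
    intro k
    funext e
    by_cases he : ∃ j i, i ≤ P.len j ∧ P.ed j i = e
    · obtain ⟨j, i, hi, rfl⟩ := he
      rw [weight_ed P k hi, Pool.Agent.Q211.CC.wgt_ed P k j i hi]
      unfold wt Pool.Agent.Q211.CC.wt
      split_ifs <;> omega
    · rw [Pool.Agent.Q211.CC.wgt_zero P k e fun j i hi h => he ⟨j, i, hi, h⟩]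
      by_contra h
      exact he (exists_of_weight_ne_zero P k h)
  refine ⟨⟨weight P 1, ?_, fun k => ?_, fun k => ⟨fun hc => ?_, fun hk => ?_⟩⟩,
    fun k hk => not_propertyP P hk⟩
  · intro e
    rcases eq_or_ne (weight P 1 e) 0 with h | h
    · omega
    · obtain ⟨j, i, hi, rfl⟩ := exists_of_weight_ne_zero P 1 h
      rw [weight_ed P 1 hi, one_mul]
      unfold wt
      split_ifs <;> omega
  · rw [hw k]
    exact ⟨admissible P k, eulerian P k⟩
  · by_contra hk
    rw [hw k] at hc
    exact not_hasCover P (Nat.not_even_iff_odd.1 hk) hc
  · obtain ⟨m, hm⟩ := hk
    rw [hw k, hg k, show k = 2 * m by omega]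
    exact Pool.Agent.Q211.CC.cover_even P m

end Pool.Agent.Results.MP_3c540c_co.OddMultiples
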